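import Pool.Agent.R942.HX.Core

/-!
# Strings of one sequence of independent digits at pairwise disjoint places

As `Pool/Agent/Zk82/OS/Main`, but the digits `d 0, d 1, …` in base `b` are independent random variables of
arbitrary distributions with atoms at most `b ^ (-h)` (for example a typical point of a Cantor set).
-/

set_option autoImplicit false

namespace Pool.Agent.Zk82.OS

open Filter Topology MeasureTheory
open scoped ENNReal NNReal
open Pool.Agent.R942.HX (Sparse)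

/-- For each `k < R` the string of `s k` digits of `|N k|` in base `b` which ends at the digit of
`b ^ (i k)` is the string `d (m k), …, d (m k + s k - 1)`; here `b ^ (i k) ≤ b Y`, `m k ≤ Z`,
`P k ≤ b ^ (s k) ≤ b Y`, and the `R` strings of `d` are pairwise disjoint. -/
def DigitStrings (b : ℕ) (d : ℕ → Fin b) {R : ℕ} (N : Fin R → ℤ) (Y Z : ℝ) (P : Fin R → ℝ) : Prop :=
  ∃ i m s : Fin R → ℕ,
    (∀ k, (b : ℝ) ^ i k ≤ b * Y ∧ (m k : ℝ) ≤ Z ∧ P k ≤ (b : ℝ) ^ s k ∧ (b : ℝ) ^ s k ≤ b * Y ∧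
      ∀ j < s k, (d (m k + (s k - 1 - j)) : ℕ) = (N k).natAbs / b ^ (i k + j) % b) ∧
    ∀ k l, k ≠ l → m k + s k ≤ m l ∨ m l + s l ≤ m k

/-- the probability of prescribed digits at pairwise disjoint places -/
theorem cylinder_measure (b : ℕ) (μ : ℕ → Measure (Fin b)) [∀ q, IsProbabilityMeasure (μ q)]
    (ε : ℝ≥0∞) (hμ : ∀ q a, μ q {a} ≤ ε) {R : ℕ} (m s : Fin R → ℕ)
    (c : Fin R → ℕ → ℕ) (hsep : ∀ k l, k ≠ l → m k + s k ≤ m l ∨ m l + s l ≤ m k) :
    Measure.infinitePi μ {d | ∀ k, ∀ j < s k, (d (m k + (s k - 1 - j)) : ℕ) = c k j} ≤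
      ε ^ (∑ k, s k) := by
  classical
  let S : Finset ℕ := Finset.univ.biUnion fun k : Fin R => Finset.Ico (m k) (m k + s k)
  let A : ℕ → Set (Fin b) := fun q =>
    {a | ∀ k, ∀ j < s k, q = m k + (s k - 1 - j) → (a : ℕ) = c k j}
  have hsub : {d : ℕ → Fin b | ∀ k, ∀ j < s k, (d (m k + (s k - 1 - j)) : ℕ) = c k j} ⊆
      Set.pi (S : Set ℕ) A := by
    intro d hd q _ k j hj hq
    rw [hq]
    exact hd k j hj
  refine (measure_mono hsub).trans ?_
  rw [Measure.infinitePi_pi μ (fun q _ => (Set.toFinite _).measurableSet)]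
  have hcard : S.card = ∑ k, s k := by
    rw [Finset.card_biUnion]
    · simp
    · intro k _ l _ hkl
      show Disjoint (Finset.Ico (m k) (m k + s k)) (Finset.Ico (m l) (m l + s l))
      rw [Finset.disjoint_left]
      intro q hq hq'
      rw [Finset.mem_Ico] at hq hq'
      rcases hsep k l hkl with h | h <;> omega
  rw [← hcard]
  refine Finset.prod_le_pow_card _ _ _ fun q hq => ?_
  rw [Finset.mem_biUnion] at hq
  obtain ⟨k, -, hk⟩ := hq
  rw [Finset.mem_Ico] at hk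
  obtain ⟨hk1, hk2⟩ := hk
  have hj : s k - 1 - (q - m k) < s k := by omega
  have hq' : q = m k + (s k - 1 - (s k - 1 - (q - m k))) := by omega
  by_cases hne : (A q).Nonempty
  · obtain ⟨a, ha⟩ := hne
    have hsub2 : A q ⊆ {a} := by
      intro a' ha'
      have h1 := ha k _ hj hq'
      have h2 := ha' k _ hj hq'
      exact Fin.ext (h2.trans h1.symm)
    exact (measure_mono hsub2).trans (hμ q a)
  · rw [Set.not_nonempty_iff_eq_empty] at hne
    rw [hne, measure_empty]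
    exact bot_le

variable {T : Type} {H : T → ℝ} {E : Set T} {κ : ℝ}

lemma count_log {b : ℕ} (hb : 2 ≤ b) {w η x : ℝ} (hw : 0 ≤ w) (hη0 : 0 < η) (hx : 1 ≤ x) :
    (⌊1 + w * Real.log x / Real.log b⌋₊ : ℝ) + 1 ≤ (2 + w / (η * Real.log b)) * x ^ η := by
  have hb1 : (1 : ℝ) < b := by exact_mod_cast hb
  have hlogb : 0 < Real.log b := Real.log_pos hb1
  have hx0 : 0 < x := by linarith
  have hL : 0 ≤ w * Real.log x / Real.log b :=
    div_nonneg (mul_nonneg hw (Real.log_nonneg hx)) hlogb.le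
  have hxη : 1 ≤ x ^ η := Real.one_le_rpow hx hη0.le
  have h2 := Nat.floor_le (show 0 ≤ 1 + w * Real.log x / Real.log b by linarith)
  have h3 := Real.log_le_rpow_div hx0.le hη0
  have h4 : w * Real.log x / Real.log b ≤ w / (η * Real.log b) * x ^ η := by
    rw [div_le_iff₀ hlogb]
    calc w * Real.log x ≤ w * (x ^ η / η) := mul_le_mul_of_nonneg_left h3 hw
      _ = w / (η * Real.log b) * x ^ η * Real.log b := by
        field_simp
  nlinarith

lemma mem_range_log {b : ℕ} (hb : 2 ≤ b) {w x : ℝ} (hx : 1 ≤ x) {i : ℕ}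
    (hi : (b : ℝ) ^ i ≤ b * x ^ w) : i ∈ Finset.range (⌊1 + w * Real.log x / Real.log b⌋₊ + 1) := by
  have hb1 : (1 : ℝ) < b := by exact_mod_cast hb
  have hlogb : 0 < Real.log b := Real.log_pos hb1
  have hx0 : 0 < x := by linarith
  rw [Finset.mem_range]
  refine Nat.lt_succ_of_le (Nat.le_floor ?_)
  have h2 := Real.log_le_log (by positivity) hi
  rw [Real.log_pow, Real.log_mul (by positivity) (Real.rpow_pos_of_pos hx0 _).ne',
    Real.log_rpow hx0] at h2
  have h5 : (i : ℝ) ≤ (Real.log b + w * Real.log x) / Real.log b := by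
    rw [le_div_iff₀ hlogb]
    exact h2
  rwa [add_div, div_self hlogb.ne'] at h5

theorem one_sequence_base (hE : Sparse H E κ) (h0 : 0 ≤ κ) {R : ℕ} (N : Fin R → T → ℤ)
    {w : ℝ} (hw : 0 ≤ w) (b : ℕ) (hb : 2 ≤ b) (μ : ℕ → Measure (Fin b))
    [∀ q, IsProbabilityMeasure (μ q)] {h : ℝ} (hh : 0 < h)
    (hμ : ∀ q a, μ q {a} ≤ ENNReal.ofReal ((b : ℝ) ^ (-h))) {u : ℝ} (v : Fin R → ℝ) (hu : 0 ≤ u)
    (hv0 : ∀ k, 0 < v k) (hv : κ + R * u < h * ∑ k, v k) :
    ∀ᵐ d ∂(Measure.infinitePi μ), {t | t ∈ E ∧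
      DigitStrings b d (fun k => N k t) (H t ^ w) (H t ^ u) (fun k => H t ^ (v k))}.Finite := by
  classical
  have hb1 : (1 : ℝ) < b := by exact_mod_cast hb
  have hb0 : (0 : ℝ) < b := by linarith
  have hlogb : 0 < Real.log b := Real.log_pos hb1
  have hR0 : (0 : ℝ) < R := by
    rcases Nat.eq_zero_or_pos R with h | h
    · subst h
      simp at hv
      linarith
    · exact_mod_cast h
  set V : ℝ := ∑ k, v k with hV
  have hV0 : 0 ≤ V := Finset.sum_nonneg fun k _ => (hv0 k).le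
  have hvV : ∀ k, v k ≤ V := fun k => Finset.single_le_sum (fun i _ => (hv0 i).le) (Finset.mem_univ k)
  set η : ℝ := (h * V - κ - R * u) / (4 * R) with hη
  have hη0 : 0 < η := by rw [hη]; exact div_pos (by linarith) (by linarith)
  have hηR : R * (2 * η) = (h * V - κ - R * u) / 2 := by rw [hη]; field_simp; ring
  set M : ℝ := 2 + w / (η * Real.log b) with hM
  have hM0 : 0 ≤ M := by rw [hM]; positivity
  let F : T → Finset ((Fin R → ℕ) × ((Fin R → ℕ) × (Fin R → ℕ))) := fun t =>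
    Fintype.piFinset (fun _ : Fin R => Finset.range (⌊1 + w * Real.log (H t) / Real.log b⌋₊ + 1)) ×ˢ
      (Fintype.piFinset (fun _ : Fin R => Finset.range (⌊H t ^ u⌋₊ + 1)) ×ˢ
      Fintype.piFinset (fun _ : Fin R => Finset.range (⌊1 + w * Real.log (H t) / Real.log b⌋₊ + 1)))
  have hcard : ∀ t ∈ E, ((F t).card : ℝ) ≤ ((M * (2 * M)) ^ R) * H t ^ (R * (u + 2 * η)) := by
    intro t ht
    have hx : 1 ≤ H t := hE.1 t ht
    have hx0 : 0 < H t := by linarith
    have hxu : 1 ≤ H t ^ u := Real.one_le_rpow hx hu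
    have hxη : 1 ≤ H t ^ η := Real.one_le_rpow hx hη0.le
    simp only [F, Finset.card_product, Fintype.card_piFinset, Finset.prod_const, Finset.card_univ,
      Fintype.card_fin, Finset.card_range]
    push_cast
    have h1 : (⌊1 + w * Real.log (H t) / Real.log b⌋₊ : ℝ) + 1 ≤ M * H t ^ η :=
      count_log hb hw hη0 hx
    have h2 := h1
    have h5 : (⌊H t ^ u⌋₊ : ℝ) + 1 ≤ 2 * H t ^ u := by
      have := Nat.floor_le (show 0 ≤ H t ^ u by linarith)
      linarith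
    rw [← mul_pow, ← mul_pow]
    calc (((⌊1 + w * Real.log (H t) / Real.log b⌋₊ : ℝ) + 1) * (((⌊H t ^ u⌋₊ : ℝ) + 1) *
          ((⌊1 + w * Real.log (H t) / Real.log b⌋₊ : ℝ) + 1))) ^ R
        ≤ ((M * H t ^ η) * ((2 * H t ^ u) * (M * H t ^ η))) ^ R := by
          refine pow_le_pow_left₀ (by positivity) ?_ R
          exact mul_le_mul h1 (mul_le_mul h5 h2 (by positivity) (by positivity)) (by positivity)
            (by positivity)
      _ = (M * (2 * M)) ^ R * (H t ^ u * (H t ^ η * H t ^ η)) ^ R := by rw [← mul_pow]; ring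
      _ = ((M * (2 * M)) ^ R) * H t ^ (R * (u + 2 * η)) := by
          rw [← Real.rpow_add hx0, ← Real.rpow_add hx0, ← Real.rpow_natCast (H t ^ (u + (η + η))) R,
            ← Real.rpow_mul hx0.le]
          congr 2
          ring
  have hκ : κ < h * V - R * (u + 2 * η) := by
    have : (R : ℝ) * (u + 2 * η) = R * u + (h * V - κ - R * u) / 2 := by rw [mul_add, hηR]
    rw [this]
    linarith
  let B : T → (Fin R → ℕ) × ((Fin R → ℕ) × (Fin R → ℕ)) → Set (ℕ → Fin b) := fun t p =>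
    {d | (∀ k, H t ^ (v k) ≤ (b : ℝ) ^ p.2.2 k) ∧
      (∀ k l, k ≠ l → p.2.1 k + p.2.2 k ≤ p.2.1 l ∨ p.2.1 l + p.2.2 l ≤ p.2.1 k) ∧
      ∀ k, ∀ j < p.2.2 k, (d (p.2.1 k + (p.2.2 k - 1 - j)) : ℕ) =
        (N k t).natAbs / b ^ (p.1 k + j) % b}
  have hB : ∀ t ∈ E, ∀ p, Measure.infinitePi μ (B t p) ≤ ENNReal.ofReal (H t ^ (-(h * V))) := by
    intro t ht p
    have hx : 1 ≤ H t := hE.1 t ht
    have hx0 : 0 < H t := by linarith
    by_cases hs : (∀ k, H t ^ (v k) ≤ (b : ℝ) ^ p.2.2 k) ∧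
      (∀ k l, k ≠ l → p.2.1 k + p.2.2 k ≤ p.2.1 l ∨ p.2.1 l + p.2.2 l ≤ p.2.1 k)
    · have h2 := cylinder_measure b μ (ENNReal.ofReal ((b : ℝ) ^ (-h))) hμ p.2.1 p.2.2
        (fun k j => (N k t).natAbs / b ^ (p.1 k + j) % b) hs.2
      refine (measure_mono fun d hd => hd.2.2).trans (h2.trans ?_)
      rw [← ENNReal.ofReal_pow (by positivity)]
      apply ENNReal.ofReal_le_ofReal
      rw [← Real.rpow_natCast, ← Real.rpow_mul hb0.le, Real.rpow_neg hx0.le (h * V),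
        show -h * ((∑ k, p.2.2 k : ℕ) : ℝ) = -(h * ((∑ k, p.2.2 k : ℕ) : ℝ)) by ring,
        Real.rpow_neg hb0.le]
      apply inv_anti₀ (Real.rpow_pos_of_pos hx0 _)
      have h3 : H t ^ V ≤ (b : ℝ) ^ ((∑ k, p.2.2 k : ℕ) : ℝ) := by
        rw [Real.rpow_natCast, ← Finset.prod_pow_eq_pow_sum, hV, Real.rpow_sum_of_pos hx0]
        exact Finset.prod_le_prod (fun k _ => (Real.rpow_pos_of_pos hx0 _).le) fun k _ => hs.1 k
      calc H t ^ (h * V) = (H t ^ V) ^ h := by rw [← Real.rpow_mul hx0.le, mul_comm]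
        _ ≤ ((b : ℝ) ^ ((∑ k, p.2.2 k : ℕ) : ℝ)) ^ h :=
          Real.rpow_le_rpow (Real.rpow_pos_of_pos hx0 _).le h3 hh.le
        _ = (b : ℝ) ^ (h * ((∑ k, p.2.2 k : ℕ) : ℝ)) := by
          rw [← Real.rpow_mul hb0.le, mul_comm]
    · have h2 : B t p = ∅ := by
        ext d
        simp only [B, Set.mem_ofPred_eq, Set.mem_empty_iff_false, iff_false]
        rintro ⟨h2, h3, -⟩
        exact hs ⟨h2, h3⟩
      rw [h2, measure_empty]
      exact bot_le
  have h1 := hE.null h0 (Measure.infinitePi μ).toOuterMeasure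
    (fun t n => if n = 0 then ⋃ p ∈ F t, B t p else ∅)
    (δ := h * V - R * (u + 2 * η)) (C := (M * (2 * M)) ^ R) hκ ?_
  · have h2 : ∀ᵐ d ∂(Measure.infinitePi μ), ¬ {p : T × ℕ | p.1 ∈ E ∧ d ∈ (if p.2 = 0 then
        ⋃ q ∈ F p.1, B p.1 q else ∅)}.Infinite := by
      rw [ae_iff]
      simp only [not_not]
      exact h1
    filter_upwards [h2] with d hd
    rw [Set.not_infinite] at hd
    refine (hd.image Prod.fst).subset ?_
    rintro t ⟨ht, i, m, s, h3, h4⟩
    refine ⟨(t, 0), ⟨ht, ?_⟩, rfl⟩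
    have hxt : 1 ≤ H t := hE.1 t ht
    have hx0 : 0 < H t := by linarith
    simp only [if_pos]
    rw [Set.mem_iUnion₂]
    refine ⟨(i, (m, s)), ?_, fun k => (h3 k).2.2.1, h4, fun k => (h3 k).2.2.2.2⟩
    simp only [F]
    rw [Finset.mem_product, Finset.mem_product, Fintype.mem_piFinset, Fintype.mem_piFinset,
      Fintype.mem_piFinset]
    refine ⟨fun k => mem_range_log hb hxt (h3 k).1, fun k => ?_, fun k => ?_⟩
    · rw [Finset.mem_range]
      exact Nat.lt_succ_of_le (Nat.le_floor (h3 k).2.1)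
    · exact mem_range_log hb hxt (h3 k).2.2.2.1
  · intro t ht
    have hx : 1 ≤ H t := hE.1 t ht
    have hx0 : 0 < H t := by linarith
    rw [tsum_eq_single 0 (fun n hn => by rw [if_neg hn]; exact measure_empty), if_pos rfl]
    show Measure.infinitePi μ (⋃ p ∈ F t, B t p) ≤ _
    refine (measure_biUnion_finset_le _ _).trans ?_
    refine (Finset.sum_le_sum fun p _ => hB t ht p).trans ?_
    rw [Finset.sum_const, nsmul_eq_mul, ← ENNReal.ofReal_natCast,
      ← ENNReal.ofReal_mul (Nat.cast_nonneg _)]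
    apply ENNReal.ofReal_le_ofReal
    calc ((F t).card : ℝ) * H t ^ (-(h * V))
        ≤ (((M * (2 * M)) ^ R) * H t ^ (R * (u + 2 * η))) * H t ^ (-(h * V)) :=
          mul_le_mul_of_nonneg_right (hcard t ht) (by positivity)
      _ = (M * (2 * M)) ^ R * (H t ^ (R * (u + 2 * η)) * H t ^ (-(h * V))) := by ring
      _ = (M * (2 * M)) ^ R * H t ^ (-(h * V - R * (u + 2 * η))) := by
          rw [← Real.rpow_add hx0]
          congr 2
          ring

lemma DigitStrings.mono {b : ℕ} {d : ℕ → Fin b} {R : ℕ} {N : Fin R → ℤ} {Y Z Z' : ℝ}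
    {P P' : Fin R → ℝ} (h : DigitStrings b d N Y Z P) (hZ : Z ≤ Z') (hP : ∀ k, P' k ≤ P k) :
    DigitStrings b d N Y Z' P' := by
  obtain ⟨i, m, s, h1, h2⟩ := h
  refine ⟨i, m, s, fun k => ?_, h2⟩
  obtain ⟨h3, h4, h5, h6, h7⟩ := h1 k
  exact ⟨h3, h4.trans hZ, (hP k).trans h5, h6, h7⟩

/-- **Strings of one sequence of independent digits at pairwise disjoint places.** -/
theorem one_sequence (hE : Sparse H E κ) (h0 : 0 ≤ κ) {R : ℕ} (N : Fin R → T → ℤ)
    {w : ℝ} (hw : 0 ≤ w) (b : ℕ) (hb : 2 ≤ b) (μ : ℕ → Measure (Fin b))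
    [∀ q, IsProbabilityMeasure (μ q)] {h : ℝ} (hh : 0 < h)
    (hμ : ∀ q a, μ q {a} ≤ ENNReal.ofReal ((b : ℝ) ^ (-h))) :
    ∀ᵐ d ∂(Measure.infinitePi μ), ∀ (u : ℝ) (v : Fin R → ℝ), 0 ≤ u → (∀ k, 0 < v k) →
      κ + R * u < h * ∑ k, v k →
      {t | t ∈ E ∧
        DigitStrings b d (fun k => N k t) (H t ^ w) (H t ^ u) (fun k => H t ^ (v k))}.Finite := by
  have key : ∀ᵐ d ∂(Measure.infinitePi μ), ∀ (q : ℚ) (p : Fin R → ℚ),
      (0 : ℝ) ≤ q → (∀ k, (0 : ℝ) < p k) → κ + R * (q : ℝ) < h * ∑ k, (p k : ℝ) →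
      {t | t ∈ E ∧ DigitStrings b d (fun k => N k t) (H t ^ w) (H t ^ (q : ℝ))
        (fun k => H t ^ (p k : ℝ))}.Finite := by
    rw [ae_all_iff]
    intro q
    rw [ae_all_iff]
    intro p
    by_cases hc : (0 : ℝ) ≤ q ∧ (∀ k, (0 : ℝ) < p k) ∧ κ + R * (q : ℝ) < h * ∑ k, (p k : ℝ)
    · filter_upwards [one_sequence_base hE h0 N hw b hb μ hh hμ (fun k => (p k : ℝ)) hc.1 hc.2.1
        hc.2.2] with d hd _ _ _
      exact hd
    · filter_upwards with d h2 h3 h4
      exact absurd ⟨h2, h3, h4⟩ hc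
  filter_upwards [key] with d hd u v hu hv0 hv
  rcases Nat.eq_zero_or_pos R with hR | hR
  · subst hR
    simp at hv
    linarith
  have hR0 : (0 : ℝ) < R := by exact_mod_cast hR
  set ε : ℝ := (h * ∑ k, v k - κ - R * u) / (2 * R * h) with hε
  have hε0 : 0 < ε := by rw [hε]; exact div_pos (by linarith) (by positivity)
  have hεR : h * (R * ε) = (h * ∑ k, v k - κ - R * u) / 2 := by rw [hε]; field_simp
  have hp : ∀ k, ∃ p : ℚ, (0 : ℝ) < p ∧ (p : ℝ) ≤ v k ∧ v k - ε < p := by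
    intro k
    obtain ⟨p, hp1, hp2⟩ := exists_rat_btwn (show max 0 (v k - ε) < v k from
      max_lt (hv0 k) (by linarith))
    exact ⟨p, (le_max_left _ _).trans_lt hp1, hp2.le, (le_max_right _ _).trans_lt hp1⟩
  choose p hp1 hp2 hp3 using hp
  have hsum : κ + R * u < h * ∑ k, (p k : ℝ) := by
    have h1 : ∑ k, (v k - ε) ≤ ∑ k, (p k : ℝ) := Finset.sum_le_sum fun k _ => (hp3 k).le
    rw [Finset.sum_sub_distrib, Finset.sum_const, Finset.card_univ, Fintype.card_fin,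
      nsmul_eq_mul] at h1
    have h2 := mul_le_mul_of_nonneg_left h1 hh.le
    rw [mul_sub, hεR] at h2
    linarith
  obtain ⟨q, hq1, hq2⟩ := exists_rat_btwn (show u < (h * ∑ k, (p k : ℝ) - κ) / R by
    rw [lt_div_iff₀ hR0]
    linarith)
  rw [lt_div_iff₀ hR0] at hq2
  refine (hd q p (hu.trans hq1.le) hp1 (by linarith)).subset ?_
  rintro t ⟨ht, hall⟩
  have hx : 1 ≤ H t := hE.1 t ht
  exact ⟨ht, hall.mono (Real.rpow_le_rpow_of_exponent_le hx hq1.le)
    (fun k => Real.rpow_le_rpow_of_exponent_le hx (hp2 k))⟩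

end Pool.Agent.Zk82.OS
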