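import Mathlib

/-!
# Counting integers with prescribed blocks of digits
-/

set_option autoImplicit false

namespace Pool.Agent.Zk82.OS

lemma mod_div_mod (b : ℕ) {n A L P : ℕ} (h : A + L ≤ P) :
    (n % b ^ P / b ^ A) % b ^ L = (n / b ^ A) % b ^ L := by
  obtain ⟨Q, rfl⟩ := Nat.exists_eq_add_of_le h
  rw [show A + L + Q = A + (L + Q) by ring, pow_add b A, Nat.mod_mul_right_div_self,
    Nat.mod_mod_of_dvd _ (pow_dvd_pow b (Nat.le_add_right L Q))]

/-- The number of the `n < b ^ M` whose blocks of `L k ≥ 1` digits at pairwise disjoint places (starting at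
the digits `A k`, counted from the last one) belong to sets `W k` of at most `w` elements is at most
`w ^ R b ^ (M - ∑ L k)`. -/
theorem block_count (b : ℕ) (hb : 0 < b) {ι : Type} [DecidableEq ι] (L A : ι → ℕ) (hL : ∀ k, 1 ≤ L k)
    (W : ι → Finset ℕ) (w : ℕ) (hW : ∀ k, (W k).card ≤ w) (S : Finset ι) :
    (∀ k ∈ S, ∀ l ∈ S, k ≠ l → A k + L k ≤ A l ∨ A l + L l ≤ A k) →
    ∀ M : ℕ, (∀ k ∈ S, A k + L k ≤ M) →
      ((Finset.range (b ^ M)).filter (fun n => ∀ k ∈ S, (n / b ^ (A k)) % b ^ (L k) ∈ W k)).card *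
        b ^ (∑ k ∈ S, L k) ≤ w ^ S.card * b ^ M := by
  refine Finset.induction_on_max_value A S ?_ ?_
  · intro _ M _
    simp
  · intro a s ha hmax ih hsep M hM
    have hs : ∀ x ∈ s, A x + L x ≤ A a := by
      intro x hx
      have hxa : x ≠ a := fun h => ha (h ▸ hx)
      rcases hsep x (Finset.mem_insert_of_mem hx) a (Finset.mem_insert_self a s) hxa with h | h
      · exact h
      · have := hmax x hx
        have := hL a
        omega
    have ih' := ih (fun k hk l hl => hsep k (Finset.mem_insert_of_mem hk) l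
      (Finset.mem_insert_of_mem hl)) (A a) hs
    have hMa := hM a (Finset.mem_insert_self a s)
    obtain ⟨Q, hQ⟩ := Nat.exists_eq_add_of_le hMa
    set F := (Finset.range (b ^ M)).filter
      (fun n => ∀ k ∈ insert a s, (n / b ^ (A k)) % b ^ (L k) ∈ W k) with hF
    set F' := (Finset.range (b ^ (A a))).filter
      (fun n => ∀ k ∈ s, (n / b ^ (A k)) % b ^ (L k) ∈ W k) with hF'
    have hcard : F.card ≤ b ^ Q * ((W a).card * F'.card) := by
      rw [← Finset.card_range (b ^ Q), ← Finset.card_product, ← Finset.card_product]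
      refine Finset.card_le_card_of_injOn
        (fun n => (n / b ^ (A a + L a), ((n / b ^ (A a)) % b ^ (L a), n % b ^ (A a)))) ?_ ?_
      · intro n hn
        rw [hF, Finset.mem_coe, Finset.mem_filter, Finset.mem_range] at hn
        obtain ⟨hn1, hn2⟩ := hn
        rw [Finset.mem_coe, Finset.mem_product, Finset.mem_product, Finset.mem_range]
        refine ⟨?_, hn2 a (Finset.mem_insert_self a s), ?_⟩
        · rw [Nat.div_lt_iff_lt_mul (pow_pos hb _), ← pow_add, show Q + (A a + L a) = M by omega]
          exact hn1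
        · rw [hF', Finset.mem_filter, Finset.mem_range]
          refine ⟨Nat.mod_lt _ (pow_pos hb _), fun k hk => ?_⟩
          simp only
          rw [mod_div_mod b (hs k hk)]
          exact hn2 k (Finset.mem_insert_of_mem hk)
      · intro n _ n' _ h
        simp only [Prod.mk.injEq] at h
        obtain ⟨h1, h2, h3⟩ := h
        have e1 : ∀ x : ℕ, x / b ^ (A a) =
            b ^ (L a) * (x / b ^ (A a + L a)) + (x / b ^ (A a)) % b ^ (L a) := by
          intro x
          rw [pow_add, ← Nat.div_div_eq_div_mul]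
          exact (Nat.div_add_mod _ _).symm
        have e2 : ∀ x : ℕ, x = b ^ (A a) * (x / b ^ (A a)) + x % b ^ (A a) :=
          fun x => (Nat.div_add_mod _ _).symm
        rw [e2 n, e2 n', e1 n, e1 n', h1, h2, h3]
    rw [Finset.card_insert_of_notMem ha, Finset.sum_insert ha]
    calc F.card * b ^ (L a + ∑ k ∈ s, L k) ≤
        (b ^ Q * ((W a).card * F'.card)) * b ^ (L a + ∑ k ∈ s, L k) := Nat.mul_le_mul_right _ hcard
      _ = b ^ Q * (W a).card * b ^ (L a) * (F'.card * b ^ (∑ k ∈ s, L k)) := by
          rw [pow_add]; ring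
      _ ≤ b ^ Q * w * b ^ (L a) * (w ^ s.card * b ^ (A a)) :=
          Nat.mul_le_mul (Nat.mul_le_mul_right _ (Nat.mul_le_mul_left _ (hW a))) ih'
      _ = w ^ (s.card + 1) * b ^ M := by
          rw [hQ, pow_add, pow_add, pow_succ]; ring

end Pool.Agent.Zk82.OS
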