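import Pool.Agent.Zk82.OS.Blocks

/-!
# The measure of the numbers with prescribed digits at pairwise disjoint places
-/

set_option autoImplicit false

namespace Pool.Agent.Zk82.OS

open MeasureTheory

lemma floor_set (b M : ℕ) (hb : 0 < b) (G : Finset ℕ) :
    volume {x : ℝ | x ∈ Set.Ico (0 : ℝ) 1 ∧ ⌊(b : ℝ) ^ M * x⌋₊ ∈ G} ≤
      ENNReal.ofReal (G.card / (b : ℝ) ^ M) := by
  have hbM : (0 : ℝ) < (b : ℝ) ^ M := by positivity
  have h1 : {x : ℝ | x ∈ Set.Ico (0 : ℝ) 1 ∧ ⌊(b : ℝ) ^ M * x⌋₊ ∈ G} ⊆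
      ⋃ n ∈ G, Set.Icc ((n : ℝ) / (b : ℝ) ^ M) (((n : ℝ) + 1) / (b : ℝ) ^ M) := by
    rintro x ⟨⟨hx0, hx1⟩, hx⟩
    rw [Set.mem_iUnion₂]
    have hy : 0 ≤ (b : ℝ) ^ M * x := by positivity
    refine ⟨_, hx, ?_, ?_⟩
    · rw [div_le_iff₀ hbM, mul_comm x]
      exact Nat.floor_le hy
    · rw [le_div_iff₀ hbM, mul_comm x]
      exact (Nat.lt_floor_add_one _).le
  refine (measure_mono h1).trans ((measure_biUnion_finset_le _ _).trans ?_)
  have h2 : ∀ n ∈ G, volume (Set.Icc ((n : ℝ) / (b : ℝ) ^ M) (((n : ℝ) + 1) / (b : ℝ) ^ M)) ≤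
      ENNReal.ofReal (1 / (b : ℝ) ^ M) := by
    intro n _
    rw [Real.volume_Icc]
    apply ENNReal.ofReal_le_ofReal
    rw [← sub_div]
    apply le_of_eq
    congr 1
    ring
  refine (Finset.sum_le_sum h2).trans ?_
  rw [Finset.sum_const, nsmul_eq_mul, ← ENNReal.ofReal_natCast,
    ← ENNReal.ofReal_mul (Nat.cast_nonneg _)]
  apply ENNReal.ofReal_le_ofReal
  rw [mul_one_div]

/-- the digits of `x` at the places `m + 1, …, m + L` are in a set of at most `2 b + 1` blocks if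
`b ^ m x` is near `y` modulo one -/
lemma block_of_near {b : ℕ} (hb : 0 < b) (L : ℕ) {ρ : ℝ} (hρ : ρ * (b : ℝ) ^ L ≤ b) (y : ℝ) :
    ∃ W : Finset ℕ, W.card ≤ 2 * b + 1 ∧ ∀ (m : ℕ) (x : ℝ), 0 ≤ x →
      (∃ j : ℤ, |y - (b : ℝ) ^ m * x - j| ≤ ρ) → ⌊(b : ℝ) ^ (m + L) * x⌋₊ % b ^ L ∈ W := by
  classical
  refine ⟨(Finset.Icc (⌊(b : ℝ) ^ L * y⌋ - b) (⌊(b : ℝ) ^ L * y⌋ + b)).image
    (fun z : ℤ => (z % ((b ^ L : ℕ) : ℤ)).toNat), ?_, ?_⟩
  · refine Finset.card_image_le.trans ?_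
    rw [Int.card_Icc]
    omega
  · rintro m x hx ⟨j, hj⟩
    have hbL : (0 : ℝ) < (b : ℝ) ^ L := by positivity
    have h0 : 0 ≤ (b : ℝ) ^ (m + L) * x := by positivity
    have h1 : |(b : ℝ) ^ L * y - (b : ℝ) ^ (m + L) * x - (b : ℝ) ^ L * j| ≤ b := by
      have e : (b : ℝ) ^ L * y - (b : ℝ) ^ (m + L) * x - (b : ℝ) ^ L * j =
          (y - (b : ℝ) ^ m * x - j) * (b : ℝ) ^ L := by rw [pow_add]; ring
      rw [e, abs_mul, abs_of_pos hbL]
      exact (mul_le_mul_of_nonneg_right hj hbL.le).trans hρ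
    have h2 := Nat.floor_le h0
    have h3 := Nat.lt_floor_add_one ((b : ℝ) ^ (m + L) * x)
    set F := ⌊(b : ℝ) ^ (m + L) * x⌋₊ with hF
    have h4 := Int.floor_le ((b : ℝ) ^ L * y)
    have h5 := Int.lt_floor_add_one ((b : ℝ) ^ L * y)
    set z := ⌊(b : ℝ) ^ L * y⌋ with hz
    rw [abs_le] at h1
    refine Finset.mem_image.2 ⟨(F : ℤ) + ((b ^ L : ℕ) : ℤ) * j, ?_, ?_⟩
    · rw [Finset.mem_Icc]
      constructor
      · have h6 : ((z - b - 1 : ℤ) : ℝ) < (((F : ℤ) + ((b ^ L : ℕ) : ℤ) * j : ℤ) : ℝ) := by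
          push_cast
          linarith [h1.1, h1.2]
        have h7 : z - b - 1 < (F : ℤ) + ((b ^ L : ℕ) : ℤ) * j := by exact_mod_cast h6
        omega
      · have h6 : (((F : ℤ) + ((b ^ L : ℕ) : ℤ) * j : ℤ) : ℝ) < ((z + b + 1 : ℤ) : ℝ) := by
          push_cast
          linarith [h1.1, h1.2]
        have h7 : (F : ℤ) + ((b ^ L : ℕ) : ℤ) * j < z + b + 1 := by exact_mod_cast h6
        omega
    · rw [Int.add_mul_emod_self_left]
      have h8 : ((F : ℤ) % ((b ^ L : ℕ) : ℤ)) = ((F % b ^ L : ℕ) : ℤ) := by push_cast; rfl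
      rw [h8, Int.toNat_natCast]

/-- **Disjoint strings.** The measure of the numbers `x` in `[0, 1)` for which the `b ^ (m k) x` are within
`ρ k` of given numbers modulo one, the strings of `s` digits with `ρ k b ^ s ≥ 1` after the places `m k`
being disjoint, is at most the product of the `(2 b + 1) ρ k`. -/
theorem strings_measure (b : ℕ) (hb : 2 ≤ b) {R : ℕ} (y : Fin R → ℝ) (m : Fin R → ℕ) (ρ : Fin R → ℝ)
    (hρ0 : ∀ k, 0 < ρ k) (hρ1 : ∀ k, ρ k < 1)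
    (hsep : ∀ k l, k ≠ l → (∃ s : ℕ, 1 ≤ ρ k * (b : ℝ) ^ s ∧ m k + s ≤ m l) ∨
      (∃ s : ℕ, 1 ≤ ρ l * (b : ℝ) ^ s ∧ m l + s ≤ m k)) :
    volume {x : ℝ | x ∈ Set.Ico (0 : ℝ) 1 ∧
      ∀ k, ∃ j : ℤ, |y k - (b : ℝ) ^ (m k) * x - j| ≤ ρ k} ≤
      ENNReal.ofReal ((2 * b + 1) ^ R * ∏ k, ρ k) := by
  classical
  have hb0 : 0 < b := by omega
  have hb1 : (1 : ℝ) < b := by exact_mod_cast hb
  have hex : ∀ k, ∃ L : ℕ, 1 ≤ L ∧ 1 ≤ ρ k * (b : ℝ) ^ L ∧ ρ k * (b : ℝ) ^ L ≤ b ∧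
      ∀ s : ℕ, 1 ≤ ρ k * (b : ℝ) ^ s → L ≤ s := by
    intro k
    have hex0 : ∃ s : ℕ, 1 ≤ ρ k * (b : ℝ) ^ s := by
      obtain ⟨s, hs⟩ := pow_unbounded_of_one_lt (1 / ρ k) hb1
      refine ⟨s, ?_⟩
      rw [div_lt_iff₀ (hρ0 k)] at hs
      linarith
    have hL1 := Nat.find_spec hex0
    have hpos : 0 < Nat.find hex0 := by
      rw [Nat.find_pos]
      simp only [pow_zero, mul_one]
      exact not_le.2 (hρ1 k)
    refine ⟨Nat.find hex0, hpos, hL1, ?_, fun s hs => Nat.find_min' hex0 hs⟩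
    have h1 : ¬ (1 ≤ ρ k * (b : ℝ) ^ (Nat.find hex0 - 1)) := Nat.find_min hex0 (by omega)
    push Not at h1
    have h2 : (b : ℝ) ^ (Nat.find hex0) = (b : ℝ) ^ (Nat.find hex0 - 1) * b := by
      rw [← pow_succ]
      congr 1
      omega
    rw [h2, ← mul_assoc]
    nlinarith
  choose L hLpos hL1 hL2 hLmin using hex
  have hsep' : ∀ k l, k ≠ l → m k + L k ≤ m l ∨ m l + L l ≤ m k := by
    intro k l hkl
    rcases hsep k l hkl with ⟨s, hs, h⟩ | ⟨s, hs, h⟩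
    · have := hLmin k s hs
      omega
    · have := hLmin l s hs
      omega
  set M : ℕ := ∑ k, (m k + L k) with hM
  have hmM : ∀ k, m k + L k ≤ M := fun k =>
    Finset.single_le_sum (f := fun k => m k + L k) (fun i _ => Nat.zero_le _) (Finset.mem_univ k)
  choose W hW1 hW2 using fun k => block_of_near (b := b) hb0 (L k) (hL2 k) (y k)
  have hcount := block_count b hb0 L (fun k => M - (m k + L k)) hLpos W (2 * b + 1) hW1 Finset.univ
    (fun k _ l _ hkl => by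
      have h1 := hmM k
      have h2 := hmM l
      rcases hsep' k l hkl with h | h
      · right; omega
      · left; omega) M (fun k _ => by have h1 := hmM k; omega)
  set G := (Finset.range (b ^ M)).filter
    (fun n => ∀ k ∈ Finset.univ, (n / b ^ (M - (m k + L k))) % b ^ (L k) ∈ W k) with hG
  have hsub : {x : ℝ | x ∈ Set.Ico (0 : ℝ) 1 ∧
      ∀ k, ∃ j : ℤ, |y k - (b : ℝ) ^ (m k) * x - j| ≤ ρ k} ⊆
      {x : ℝ | x ∈ Set.Ico (0 : ℝ) 1 ∧ ⌊(b : ℝ) ^ M * x⌋₊ ∈ G} := by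
    rintro x ⟨hx, h⟩
    refine ⟨hx, ?_⟩
    rw [hG, Finset.mem_filter, Finset.mem_range]
    constructor
    · have h0 : 0 ≤ (b : ℝ) ^ M * x := mul_nonneg (by positivity) hx.1
      rw [Nat.floor_lt h0]
      push_cast
      have : (0 : ℝ) < (b : ℝ) ^ M := by positivity
      nlinarith [hx.2]
    · intro k _
      have h1 := hW2 k (m k) x hx.1 (h k)
      have h2 : ⌊(b : ℝ) ^ M * x⌋₊ / b ^ (M - (m k + L k)) = ⌊(b : ℝ) ^ (m k + L k) * x⌋₊ := by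
        rw [← Nat.floor_div_natCast]
        congr 1
        push_cast
        have hbp : (0 : ℝ) < (b : ℝ) ^ (M - (m k + L k)) := by positivity
        rw [div_eq_iff hbp.ne']
        have h3 : (b : ℝ) ^ M = (b : ℝ) ^ (m k + L k) * (b : ℝ) ^ (M - (m k + L k)) := by
          rw [← pow_add]
          congr 1
          have := hmM k
          omega
        rw [h3]
        ring
      rw [h2]
      exact h1
  refine (measure_mono hsub).trans ((floor_set b M hb0 G).trans ?_)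
  apply ENNReal.ofReal_le_ofReal
  rw [Finset.card_univ, Fintype.card_fin] at hcount
  have hbM : (0 : ℝ) < (b : ℝ) ^ M := by positivity
  rw [div_le_iff₀ hbM]
  have hc : G.card * b ^ (∑ k, L k) ≤ (2 * b + 1) ^ R * b ^ M := by convert hcount
  have h1 : (G.card : ℝ) * (b : ℝ) ^ (∑ k, L k) ≤ (2 * b + 1) ^ R * (b : ℝ) ^ M := by
    exact_mod_cast hc
  have h2 : (1 : ℝ) ≤ (∏ k, ρ k) * (b : ℝ) ^ (∑ k, L k) := by
    rw [← Finset.prod_pow_eq_pow_sum, ← Finset.prod_mul_distrib]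
    calc (1 : ℝ) = ∏ _k : Fin R, (1 : ℝ) := by simp
      _ ≤ ∏ k, ρ k * (b : ℝ) ^ (L k) :=
        Finset.prod_le_prod (fun k _ => zero_le_one) (fun k _ => hL1 k)
  have h3 : (0 : ℝ) ≤ G.card := Nat.cast_nonneg _
  have h4 : (0 : ℝ) ≤ ∏ k, ρ k := Finset.prod_nonneg fun k _ => (hρ0 k).le
  calc (G.card : ℝ) ≤ G.card * ((∏ k, ρ k) * (b : ℝ) ^ (∑ k, L k)) := le_mul_of_one_le_right h3 h2
    _ = (∏ k, ρ k) * (G.card * (b : ℝ) ^ (∑ k, L k)) := by ring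
    _ ≤ (∏ k, ρ k) * ((2 * b + 1) ^ R * (b : ℝ) ^ M) := mul_le_mul_of_nonneg_left h1 h4
    _ = (2 * b + 1) ^ R * (∏ k, ρ k) * (b : ℝ) ^ M := by ring

end Pool.Agent.Zk82.OS
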