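import Pool.Agent.R942.HX.Core
import Pool.Agent.Zk82.OS.Meas

/-!
# Strings of digits of ONE typical number at pairwise disjoint places

`T` is a set of objects with a height `H`, `E` a set of exceptional objects, at most `X ^ (κ + o(1))` of them
of height at most `X` (`Sparse`, starting file `R942/HX/Core`), and `N k`, `k < R`, are real functions on
`T`. For almost every real number `θ`, in all bases `b ≥ 2`, only finitely many exceptional objects `t` have
the property that every `N k t` has a string in common with `θ`, of precision `H(t) ^ (- v k)`, `v k > 0`, the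
strings of `θ` being at pairwise disjoint places up to `H(t) ^ u`, if `∑ v k > κ + R u`. The starting tool
(`R942/HX/Torus`) has `R` different typical numbers instead of one, and equal precisions.
-/

set_option autoImplicit false

namespace Pool.Agent.Zk82.OS

open Filter Topology MeasureTheory
open scoped ENNReal NNReal
open Pool.Agent.R942.HX (Sparse)

/-- For each `k < R` a string of digits of `N k` in base `b` is a string of digits of `θ`:
`|N k / b ^ (i k) - b ^ (m k) θ - j| ≤ ρ k` for an integer `j`, where `b ^ (i k) ≤ b Y` and `m k ≤ Z`, and the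
`R` strings of `θ` (of `s` digits, `ρ k b ^ s ≥ 1`, after the first `m k` digits) are pairwise disjoint. -/
def Strings (b : ℕ) (θ : ℝ) {R : ℕ} (N : Fin R → ℝ) (Y Z : ℝ) (ρ : Fin R → ℝ) : Prop :=
  ∃ i m : Fin R → ℕ,
    (∀ k, (b : ℝ) ^ i k ≤ b * Y ∧ (m k : ℝ) ≤ Z ∧
      ∃ j : ℤ, |N k / (b : ℝ) ^ i k - (b : ℝ) ^ m k * θ - j| ≤ ρ k) ∧
    ∀ k l, k ≠ l → (∃ s : ℕ, 1 ≤ ρ k * (b : ℝ) ^ s ∧ m k + s ≤ m l) ∨
      (∃ s : ℕ, 1 ≤ ρ l * (b : ℝ) ^ s ∧ m l + s ≤ m k)

lemma Strings.mono {b : ℕ} {θ : ℝ} {R : ℕ} {N : Fin R → ℝ} {Y Z Z' : ℝ} {ρ ρ' : Fin R → ℝ}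
    (h : Strings b θ N Y Z ρ) (hZ : Z ≤ Z') (hρ : ∀ k, ρ k ≤ ρ' k) : Strings b θ N Y Z' ρ' := by
  obtain ⟨i, m, h1, h2⟩ := h
  refine ⟨i, m, fun k => ?_, fun k l hkl => ?_⟩
  · obtain ⟨h3, h4, j, h5⟩ := h1 k
    exact ⟨h3, h4.trans hZ, j, h5.trans (hρ k)⟩
  · rcases h2 k l hkl with ⟨s, h3, h4⟩ | ⟨s, h3, h4⟩
    · exact Or.inl ⟨s, h3.trans (mul_le_mul_of_nonneg_right (hρ k) (by positivity)), h4⟩
    · exact Or.inr ⟨s, h3.trans (mul_le_mul_of_nonneg_right (hρ l) (by positivity)), h4⟩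

lemma Strings.sub_int {b : ℕ} {θ : ℝ} {R : ℕ} {N : Fin R → ℝ} {Y Z : ℝ} {ρ : Fin R → ℝ}
    (h : Strings b θ N Y Z ρ) (z : ℤ) : Strings b (θ - z) N Y Z ρ := by
  obtain ⟨i, m, h1, h2⟩ := h
  refine ⟨i, m, fun k => ?_, h2⟩
  obtain ⟨h3, h4, j, h5⟩ := h1 k
  refine ⟨h3, h4, j + (b : ℤ) ^ m k * z, ?_⟩
  have e : N k / (b : ℝ) ^ i k - (b : ℝ) ^ m k * (θ - z) - ((j + (b : ℤ) ^ m k * z : ℤ) : ℝ) =
      N k / (b : ℝ) ^ i k - (b : ℝ) ^ m k * θ - j := by
    push_cast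
    ring
  rw [e]
  exact h5

variable {T : Type} {H : T → ℝ} {E : Set T} {κ : ℝ}

/-- the case of one base and numbers in `[0, 1)` -/
theorem one_number_base (hE : Sparse H E κ) (h0 : 0 ≤ κ) {R : ℕ} (N : Fin R → T → ℝ)
    {w : ℝ} (hw : 0 ≤ w) (b : ℕ) (hb : 2 ≤ b) {u : ℝ} (v : Fin R → ℝ) (hu : 0 ≤ u)
    (hv0 : ∀ k, 0 < v k) (hv : κ + R * u < ∑ k, v k) :
    ∀ᵐ θ : ℝ, θ ∈ Set.Ico (0 : ℝ) 1 → {t | t ∈ E ∧
      Strings b θ (fun k => N k t) (H t ^ w) (H t ^ u) (fun k => H t ^ (-(v k)))}.Finite := by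
  classical
  have hb1 : (1 : ℝ) < b := by exact_mod_cast hb
  have hlogb : 0 < Real.log b := Real.log_pos hb1
  have hR0 : (0 : ℝ) < R := by
    rcases Nat.eq_zero_or_pos R with h | h
    · subst h
      simp at hv
      linarith
    · exact_mod_cast h
  set V : ℝ := ∑ k, v k with hV
  set η : ℝ := (V - κ - R * u) / (2 * R) with hη
  have hη0 : 0 < η := by rw [hη]; exact div_pos (by linarith) (by linarith)
  have hηR : R * η = (V - κ - R * u) / 2 := by rw [hη]; field_simp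
  set M : ℝ := 2 + w / (η * Real.log b) with hM
  have hM0 : 0 ≤ M := by rw [hM]; positivity
  let F : T → Finset ((Fin R → ℕ) × (Fin R → ℕ)) := fun t =>
    Fintype.piFinset (fun _ : Fin R => Finset.range (⌊1 + w * Real.log (H t) / Real.log b⌋₊ + 1)) ×ˢ
      Fintype.piFinset (fun _ : Fin R => Finset.range (⌊H t ^ u⌋₊ + 1))
  let Sep : (Fin R → ℝ) → (Fin R → ℕ) → Prop := fun ρ m =>
    ∀ k l, k ≠ l → (∃ s : ℕ, 1 ≤ ρ k * (b : ℝ) ^ s ∧ m k + s ≤ m l) ∨
      (∃ s : ℕ, 1 ≤ ρ l * (b : ℝ) ^ s ∧ m l + s ≤ m k)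
  have hcard : ∀ t ∈ E, ((F t).card : ℝ) ≤ ((M * 2) ^ R) * H t ^ (R * (u + η)) := by
    intro t ht
    have hx : 1 ≤ H t := hE.1 t ht
    have hx0 : 0 < H t := by linarith
    have hL : 0 ≤ w * Real.log (H t) / Real.log b :=
      div_nonneg (mul_nonneg hw (Real.log_nonneg hx)) hlogb.le
    have hxu : 1 ≤ H t ^ u := Real.one_le_rpow hx hu
    have hxη : 1 ≤ H t ^ η := Real.one_le_rpow hx hη0.le
    simp only [F]
    rw [Finset.card_product, Fintype.card_piFinset, Fintype.card_piFinset, Finset.prod_const,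
      Finset.prod_const, Finset.card_univ, Fintype.card_fin, Finset.card_range, Finset.card_range]
    push_cast
    have h1 : (⌊1 + w * Real.log (H t) / Real.log b⌋₊ : ℝ) + 1 ≤ M * H t ^ η := by
      have h2 := Nat.floor_le (show 0 ≤ 1 + w * Real.log (H t) / Real.log b by linarith)
      have h3 := Real.log_le_rpow_div hx0.le hη0
      have h4 : w * Real.log (H t) / Real.log b ≤ w / (η * Real.log b) * H t ^ η := by
        rw [div_le_iff₀ hlogb]
        calc w * Real.log (H t) ≤ w * (H t ^ η / η) := mul_le_mul_of_nonneg_left h3 hw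
          _ = w / (η * Real.log b) * H t ^ η * Real.log b := by
            field_simp
      rw [hM]
      nlinarith
    have h5 : (⌊H t ^ u⌋₊ : ℝ) + 1 ≤ 2 * H t ^ u := by
      have := Nat.floor_le (show 0 ≤ H t ^ u by linarith)
      linarith
    rw [← mul_pow]
    calc (((⌊1 + w * Real.log (H t) / Real.log b⌋₊ : ℝ) + 1) * ((⌊H t ^ u⌋₊ : ℝ) + 1)) ^ R
        ≤ ((M * H t ^ η) * (2 * H t ^ u)) ^ R := by
          refine pow_le_pow_left₀ (by positivity) ?_ R
          exact mul_le_mul h1 h5 (by positivity) (by positivity)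
      _ = (M * 2) ^ R * (H t ^ u * H t ^ η) ^ R := by rw [← mul_pow]; ring
      _ = ((M * 2) ^ R) * H t ^ (R * (u + η)) := by
          rw [← Real.rpow_add hx0, ← Real.rpow_natCast (H t ^ (u + η)) R, ← Real.rpow_mul hx0.le,
            mul_comm (u + η) (R : ℝ)]
  have hκ : κ < V - R * (u + η) := by
    have : (R : ℝ) * (u + η) = R * u + (V - κ - R * u) / 2 := by rw [mul_add, hηR]
    rw [this]
    linarith
  let B : T → (Fin R → ℕ) × (Fin R → ℕ) → Set ℝ := fun t p =>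
    {x : ℝ | x ∈ Set.Ico (0 : ℝ) 1 ∧ Sep (fun k => H t ^ (-(v k))) p.2 ∧
      ∀ k, ∃ j : ℤ, |N k t / (b : ℝ) ^ p.1 k - (b : ℝ) ^ p.2 k * x - j| ≤ H t ^ (-(v k))}
  have hB : ∀ t ∈ E, ∀ p, volume (B t p) ≤ ENNReal.ofReal ((2 * b + 1) ^ R * H t ^ (-V)) := by
    intro t ht p
    have hx : 1 ≤ H t := hE.1 t ht
    have hx0 : 0 < H t := by linarith
    rcases hx.eq_or_lt with h1 | h1
    · have h2 : B t p ⊆ Set.Ico (0 : ℝ) 1 := fun x hx => hx.1
      refine (measure_mono h2).trans ?_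
      rw [Real.volume_Ico]
      apply ENNReal.ofReal_le_ofReal
      rw [← h1, Real.one_rpow, mul_one, sub_zero]
      exact one_le_pow₀ (by linarith)
    · by_cases hs : Sep (fun k => H t ^ (-(v k))) p.2
      · have h2 := strings_measure b hb (fun k => N k t / (b : ℝ) ^ p.1 k) p.2
          (fun k => H t ^ (-(v k))) (fun k => Real.rpow_pos_of_pos hx0 _)
          (fun k => Real.rpow_lt_one_of_one_lt_of_neg h1 (by linarith [hv0 k])) hs
        refine (measure_mono ?_).trans (h2.trans (ENNReal.ofReal_le_ofReal ?_))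
        · rintro x ⟨h2, -, h3⟩
          exact ⟨h2, h3⟩
        · rw [← Real.rpow_sum_of_pos hx0, Finset.sum_neg_distrib]
      · have h2 : B t p = ∅ := by
          ext x
          simp only [B, Set.mem_ofPred_eq, Set.mem_empty_iff_false, iff_false]
          rintro ⟨-, h2, -⟩
          exact hs h2
        rw [h2, measure_empty]
        exact bot_le
  have h1 := hE.null h0 (volume : Measure ℝ).toOuterMeasure
    (fun t n => if n = 0 then ⋃ p ∈ F t, B t p else ∅)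
    (δ := V - R * (u + η)) (C := (M * 2) ^ R * (2 * b + 1) ^ R) hκ ?_
  · have h2 : ∀ᵐ x : ℝ, ¬ {p : T × ℕ | p.1 ∈ E ∧ x ∈ (if p.2 = 0 then
        ⋃ q ∈ F p.1, B p.1 q else ∅)}.Infinite := by
      rw [ae_iff]
      simp only [not_not]
      exact h1
    filter_upwards [h2] with x hx hx01
    rw [Set.not_infinite] at hx
    refine (hx.image Prod.fst).subset ?_
    rintro t ⟨ht, i, m, h3, h4⟩
    refine ⟨(t, 0), ⟨ht, ?_⟩, rfl⟩
    have hxt : 1 ≤ H t := hE.1 t ht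
    have hx0 : 0 < H t := by linarith
    simp only [if_pos]
    rw [Set.mem_iUnion₂]
    refine ⟨(i, m), ?_, hx01, h4, fun k => (h3 k).2.2⟩
    simp only [F]
    rw [Finset.mem_product, Fintype.mem_piFinset, Fintype.mem_piFinset]
    constructor
    · intro k
      rw [Finset.mem_range]
      refine Nat.lt_succ_of_le (Nat.le_floor ?_)
      have h2 := Real.log_le_log (by positivity) (h3 k).1
      rw [Real.log_pow, Real.log_mul (by positivity) (Real.rpow_pos_of_pos hx0 _).ne',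
        Real.log_rpow hx0] at h2
      simp only
      have h5 : (i k : ℝ) ≤ (Real.log b + w * Real.log (H t)) / Real.log b := by
        rw [le_div_iff₀ hlogb]
        exact h2
      rwa [add_div, div_self hlogb.ne'] at h5
    · intro k
      rw [Finset.mem_range]
      exact Nat.lt_succ_of_le (Nat.le_floor (h3 k).2.1)
  · intro t ht
    have hx : 1 ≤ H t := hE.1 t ht
    have hx0 : 0 < H t := by linarith
    rw [tsum_eq_single 0 (fun n hn => by rw [if_neg hn]; exact measure_empty), if_pos rfl]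
    show volume (⋃ p ∈ F t, B t p) ≤ _
    refine (measure_biUnion_finset_le _ _).trans ?_
    refine (Finset.sum_le_sum fun p _ => hB t ht p).trans ?_
    rw [Finset.sum_const, nsmul_eq_mul, ← ENNReal.ofReal_natCast,
      ← ENNReal.ofReal_mul (Nat.cast_nonneg _)]
    apply ENNReal.ofReal_le_ofReal
    calc ((F t).card : ℝ) * ((2 * b + 1) ^ R * H t ^ (-V))
        ≤ (((M * 2) ^ R) * H t ^ (R * (u + η))) * ((2 * b + 1) ^ R * H t ^ (-V)) :=
          mul_le_mul_of_nonneg_right (hcard t ht) (by positivity)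
      _ = (M * 2) ^ R * (2 * b + 1) ^ R * (H t ^ (R * (u + η)) * H t ^ (-V)) := by ring
      _ = (M * 2) ^ R * (2 * b + 1) ^ R * H t ^ (-(V - R * (u + η))) := by
          rw [← Real.rpow_add hx0]
          congr 2
          ring

/-- **Strings of ONE typical number at pairwise disjoint places**, in all bases. -/
theorem one_number (hE : Sparse H E κ) (h0 : 0 ≤ κ) {R : ℕ} (N : Fin R → T → ℝ)
    {w : ℝ} (hw : 0 ≤ w) :
    ∀ᵐ θ : ℝ, ∀ b : ℕ, 2 ≤ b → ∀ (u : ℝ) (v : Fin R → ℝ), 0 ≤ u → (∀ k, 0 < v k) →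
      κ + R * u < ∑ k, v k →
      {t | t ∈ E ∧
        Strings b θ (fun k => N k t) (H t ^ w) (H t ^ u) (fun k => H t ^ (-(v k)))}.Finite := by
  have key : ∀ᵐ θ : ℝ, θ ∈ Set.Ico (0 : ℝ) 1 → ∀ (b : ℕ) (q : ℚ) (p : Fin R → ℚ), 2 ≤ b →
      (0 : ℝ) ≤ q → (∀ k, (0 : ℝ) < p k) → κ + R * (q : ℝ) < ∑ k, (p k : ℝ) →
      {t | t ∈ E ∧ Strings b θ (fun k => N k t) (H t ^ w) (H t ^ (q : ℝ))
        (fun k => H t ^ (-(p k : ℝ)))}.Finite := by
    have key0 : ∀ᵐ θ : ℝ, ∀ (b : ℕ) (q : ℚ) (p : Fin R → ℚ), 2 ≤ b → (0 : ℝ) ≤ q →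
        (∀ k, (0 : ℝ) < p k) → κ + R * (q : ℝ) < ∑ k, (p k : ℝ) → θ ∈ Set.Ico (0 : ℝ) 1 →
        {t | t ∈ E ∧ Strings b θ (fun k => N k t) (H t ^ w) (H t ^ (q : ℝ))
          (fun k => H t ^ (-(p k : ℝ)))}.Finite := by
      rw [ae_all_iff]
      intro b
      rw [ae_all_iff]
      intro q
      rw [ae_all_iff]
      intro p
      by_cases h : 2 ≤ b ∧ (0 : ℝ) ≤ q ∧ (∀ k, (0 : ℝ) < p k) ∧ κ + R * (q : ℝ) < ∑ k, (p k : ℝ)
      · filter_upwards [one_number_base hE h0 N hw b h.1 (fun k => (p k : ℝ)) h.2.1 h.2.2.1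
          h.2.2.2] with θ hθ _ _ _ _ hθ01
        exact hθ hθ01
      · filter_upwards with θ h1 h2 h3 h4
        exact absurd ⟨h1, h2, h3, h4⟩ h
    filter_upwards [key0] with θ hθ h01 b q p h1 h2 h3 h4
    exact hθ b q p h1 h2 h3 h4 h01
  have key2 : ∀ᵐ θ : ℝ, ∀ z : ℤ, θ - z ∈ Set.Ico (0 : ℝ) 1 → ∀ (b : ℕ) (q : ℚ) (p : Fin R → ℚ),
      2 ≤ b → (0 : ℝ) ≤ q → (∀ k, (0 : ℝ) < p k) → κ + R * (q : ℝ) < ∑ k, (p k : ℝ) →
      {t | t ∈ E ∧ Strings b (θ - z) (fun k => N k t) (H t ^ w) (H t ^ (q : ℝ))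
        (fun k => H t ^ (-(p k : ℝ)))}.Finite := by
    rw [ae_all_iff]
    intro z
    exact (measurePreserving_sub_right (volume : Measure ℝ) (z : ℝ)).quasiMeasurePreserving.ae key
  filter_upwards [key2] with θ hθ b hb u v hu hv0 hv
  rcases Nat.eq_zero_or_pos R with hR | hR
  · subst hR
    simp at hv
    linarith
  have hR0 : (0 : ℝ) < R := by exact_mod_cast hR
  set ε : ℝ := (∑ k, v k - κ - R * u) / (2 * R) with hε
  have hε0 : 0 < ε := by rw [hε]; exact div_pos (by linarith) (by linarith)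
  have hεR : R * ε = (∑ k, v k - κ - R * u) / 2 := by rw [hε]; field_simp
  have hp : ∀ k, ∃ p : ℚ, (0 : ℝ) < p ∧ (p : ℝ) ≤ v k ∧ v k - ε < p := by
    intro k
    obtain ⟨p, hp1, hp2⟩ := exists_rat_btwn (show max 0 (v k - ε) < v k from
      max_lt (hv0 k) (by linarith))
    exact ⟨p, (le_max_left _ _).trans_lt hp1, hp2.le, (le_max_right _ _).trans_lt hp1⟩
  choose p hp1 hp2 hp3 using hp
  have hsum : κ + R * u < ∑ k, (p k : ℝ) := by
    have h1 : ∑ k, (v k - ε) ≤ ∑ k, (p k : ℝ) := Finset.sum_le_sum fun k _ => (hp3 k).le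
    rw [Finset.sum_sub_distrib, Finset.sum_const, Finset.card_univ, Fintype.card_fin,
      nsmul_eq_mul, hεR] at h1
    linarith
  obtain ⟨q, hq1, hq2⟩ := exists_rat_btwn (show u < (∑ k, (p k : ℝ) - κ) / R by
    rw [lt_div_iff₀ hR0]
    linarith)
  rw [lt_div_iff₀ hR0] at hq2
  have hfl : θ - (⌊θ⌋ : ℤ) ∈ Set.Ico (0 : ℝ) 1 :=
    ⟨by linarith [Int.floor_le θ], by linarith [Int.lt_floor_add_one θ]⟩
  refine (hθ ⌊θ⌋ hfl b q p hb (hu.trans hq1.le) hp1 (by linarith)).subset ?_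
  rintro t ⟨ht, hall⟩
  have hx : 1 ≤ H t := hE.1 t ht
  exact ⟨ht, (hall.mono (Real.rpow_le_rpow_of_exponent_le hx hq1.le)
    (fun k => Real.rpow_le_rpow_of_exponent_le hx (by linarith [hp2 k]))).sub_int _⟩

end Pool.Agent.Zk82.OS
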